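import Pool.Agent.Y489.SP.Stm

/-!
# Project SP: smooth approximation (helper739), after `Pool.Agent.Y529.PH.APP` (helper529)
-/

set_option autoImplicit false

open MeasureTheory Set Metric Filter Topology
open scoped ENNReal NNReal ContDiff

noncomputable section

namespace Pool.Agent.Y739.SP

open Pool.Agent.Y489.SP Pool.Agent.Y485.HS

/-- extension of the map to the whole space (from `Pool.Agent.Y529.PH.APP`) -/
theorem extend {n : ℕ} (u : E n → E n) (hu : ContinuousOn u (BB n))
    (hd : ∀ x ∈ BB n, dist (u x) x ≤ 1 / 4) :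
    ∃ v : E n → E n, Continuous v ∧ (∀ x, dist (v x) x ≤ 1 / 4) ∧ (∀ x, ‖x‖ ≤ 3 → v x = u x) ∧
      ∀ x, 4 ≤ ‖x‖ → v x = x := by
  have hcl : IsClosed (BB n) := isClosed_closedBall
  obtain ⟨U, hU⟩ := ContinuousMap.exists_restrict_eq hcl
    (⟨(BB n).domRestrict u, continuousOn_iff_continuous_domRestrict.1 hu⟩ : C(BB n, E n))
  have hU' : ∀ x ∈ BB n, U x = u x := fun x hx =>
    congrArg (fun g : C(BB n, E n) => g ⟨x, hx⟩) hU
  let χ : ContDiffBump (0 : E n) := ⟨3, 4, by norm_num, by norm_num⟩
  have hBB : ∀ x : E n, x ∈ BB n ↔ ‖x‖ ≤ 4 := fun x => by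
    unfold BB
    rw [mem_closedBall, dist_zero_right]
  refine ⟨fun x => x + χ x • (U x - x), ?_, ?_, ?_, ?_⟩
  · exact continuous_id.add (χ.continuous.smul ((map_continuous U).sub continuous_id))
  · intro x
    rw [dist_eq_norm, add_sub_cancel_left, norm_smul, Real.norm_of_nonneg χ.nonneg]
    by_cases hx : ‖x‖ ≤ 4
    · have h1 := hd x ((hBB x).2 hx)
      rw [dist_eq_norm, ← hU' x ((hBB x).2 hx)] at h1
      have h2 := χ.le_one (x := x)
      have h3 := χ.nonneg (x := x)
      have h4 := norm_nonneg (U x - x)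
      nlinarith
    · have h1 : χ x = 0 := χ.zero_of_le_dist (by rw [dist_zero_right]; linarith)
      rw [h1, zero_mul]
      norm_num
  · intro x hx
    have h1 : χ x = 1 := χ.one_of_mem_closedBall (by
      rw [mem_closedBall, dist_zero_right]; exact hx)
    change x + χ x • (U x - x) = u x
    rw [h1, one_smul, hU' x ((hBB x).2 (by linarith))]
    abel
  · intro x hx
    have h1 : χ x = 0 := χ.zero_of_le_dist (by rw [dist_zero_right]; exact hx)
    change x + χ x • (U x - x) = x
    rw [h1, zero_smul, add_zero]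

theorem t_APX : S_APX := by
  intro n F hF hd ε hε
  obtain ⟨v, hvc, hvd, hvF, hvo⟩ := extend F hF hd
  have hhc : Continuous fun z => v z - z := hvc.sub continuous_id
  have hhs : HasCompactSupport fun z => v z - z := by
    refine HasCompactSupport.intro (isCompact_closedBall (0 : E n) 4) fun z hz => ?_
    rw [mem_closedBall, dist_zero_right, not_le] at hz
    rw [hvo z hz.le, sub_self]
  have hm : 0 < min ε (1 / 4) := lt_min hε (by norm_num)
  obtain ⟨g, hgC, hg⟩ := (hhs.uniformContinuous_of_continuous hhc).exists_contDiff_dist_le hm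
  let χ : ContDiffBump (0 : E n) := ⟨5, 6, by norm_num, by norm_num⟩
  refine ⟨fun z => z + χ z • g z, ?_, ?_, ?_, ?_⟩
  · have h1 : ContDiff ℝ ∞ fun z => z + χ z • g z := contDiff_id.add (χ.contDiff.smul hgC)
    exact h1.of_le (by exact_mod_cast le_top)
  · intro x hx
    have h1 : χ x = 0 := χ.zero_of_le_dist (by rw [dist_zero_right]; exact hx)
    change x + χ x • g x = x
    rw [h1, zero_smul, add_zero]
  · intro x hx
    rw [mem_closedBall, dist_zero_right] at hx
    have h1 : χ x = 1 := χ.one_of_mem_closedBall (by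
      rw [mem_closedBall, dist_zero_right]
      change ‖x‖ ≤ 5
      linarith)
    have h2 := (hg x).le.trans (min_le_left _ _)
    rw [hvF x hx, dist_eq_norm] at h2
    change dist (x + χ x • g x) (F x) ≤ ε
    rw [h1, one_smul, dist_eq_norm]
    calc ‖x + g x - F x‖ = ‖g x - (F x - x)‖ := by congr 1; abel
      _ ≤ ε := h2
  · intro x
    have h2 := (hg x).le.trans (min_le_right _ _)
    have h3 := hvd x
    rw [dist_eq_norm] at h2 h3
    have h4 : ‖g x‖ ≤ 1 / 2 := by
      calc ‖g x‖ = ‖(g x - (v x - x)) + (v x - x)‖ := by rw [sub_add_cancel]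
        _ ≤ ‖g x - (v x - x)‖ + ‖v x - x‖ := norm_add_le _ _
        _ ≤ 1 / 2 := by linarith
    change dist (x + χ x • g x) x ≤ 1 / 2
    rw [dist_eq_norm, add_sub_cancel_left, norm_smul, Real.norm_of_nonneg χ.nonneg]
    calc χ x * ‖g x‖ ≤ 1 * ‖g x‖ := mul_le_mul_of_nonneg_right χ.le_one (norm_nonneg _)
      _ ≤ 1 / 2 := by rw [one_mul]; exact h4

end Pool.Agent.Y739.SP
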